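import Pool.Agent.Q157.PC.Stmts

set_option autoImplicit false

namespace Pool.Agent.PC157.TaskA2

open Finset Pool.Agent.Q157.PC

theorem main : Pool.Agent.Q157.PC.TaskA2 := by
  intro n m k L hn _ _ hL hh Z hZ
  have hlA : ∀ v, (lA k L v).card ≤ k := by
    rintro (x | y)
    · exact (Finset.card_le_card Finset.sdiff_subset).trans (hL _).le
    · exact (hL (Sum.inr y)).le
  have hd : ∀ c ∈ Z, k ≤ (univ.filter fun v => c ∈ lA k L v).card +
      (if c ∈ heavy k L then n else 0) := by
    intro c hc
    have hcm : k ≤ mult L c := (Finset.mem_filter.1 (hZ hc)).2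
    by_cases h : c ∈ heavy k L
    · rw [if_pos h]
      refine hcm.trans ?_
      have hsub : (univ.filter fun v => c ∈ L v) ⊆
          (univ.filter fun v => c ∈ lA k L v) ∪ (univ : Finset (Fin n)).image Sum.inl := by
        rintro (x | y) hv
        · exact Finset.mem_union_right _ (Finset.mem_image_of_mem _ (Finset.mem_univ x))
        · refine Finset.mem_union_left _ (Finset.mem_filter.2 ⟨Finset.mem_univ _, ?_⟩)
          exact (Finset.mem_filter.1 hv).2
      calc mult L c ≤ _ := Finset.card_le_card hsub
        _ ≤ _ := Finset.card_union_le _ _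
        _ ≤ _ := by
          gcongr
          exact Finset.card_image_le.trans (by simp)
    · rw [if_neg h, add_zero]
      refine hcm.trans (Finset.card_le_card ?_)
      rintro (x | y) hv
      · refine Finset.mem_filter.2 ⟨Finset.mem_univ _, ?_⟩
        exact Finset.mem_sdiff.2 ⟨(Finset.mem_filter.1 hv).2, h⟩
      · refine Finset.mem_filter.2 ⟨Finset.mem_univ _, ?_⟩
        exact (Finset.mem_filter.1 hv).2
  set N := univ.filter fun v => ∃ c ∈ Z, c ∈ lA k L v with hN
  have h1 : Z.card * k ≤ (∑ c ∈ Z, (univ.filter fun v => c ∈ lA k L v).card) +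
      (heavy k L).card * n := by
    calc Z.card * k = ∑ c ∈ Z, k := by simp
      _ ≤ ∑ c ∈ Z, ((univ.filter fun v => c ∈ lA k L v).card +
          (if c ∈ heavy k L then n else 0)) := Finset.sum_le_sum hd
      _ = (∑ c ∈ Z, (univ.filter fun v => c ∈ lA k L v).card) +
          ∑ c ∈ Z, (if c ∈ heavy k L then n else 0) := Finset.sum_add_distrib
      _ ≤ _ := by
        gcongr
        rw [← Finset.sum_filter, Finset.sum_const, smul_eq_mul]
        gcongr
        intro c hc
        exact (Finset.mem_filter.1 hc).2
  have h2 : ∑ c ∈ Z, (univ.filter fun v => c ∈ lA k L v).card =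
      ∑ v, (Z.filter fun c => c ∈ lA k L v).card :=
    Finset.sum_card_bipartiteAbove_eq_sum_card_bipartiteBelow (fun c v => c ∈ lA k L v)
  have h3 : ∑ v, (Z.filter fun c => c ∈ lA k L v).card ≤ N.card * k := by
    calc ∑ v, (Z.filter fun c => c ∈ lA k L v).card ≤ ∑ v, (if v ∈ N then k else 0) := by
          refine Finset.sum_le_sum fun v _ => ?_
          split_ifs with hv
          · refine (Finset.card_le_card ?_).trans (hlA v)
            intro c hc
            exact (Finset.mem_filter.1 hc).2
          · rw [Nat.le_zero, Finset.card_eq_zero, Finset.filter_eq_empty_iff]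
            intro c hc hcv
            exact hv (Finset.mem_filter.2 ⟨Finset.mem_univ _, c, hc, hcv⟩)
      _ = N.card * k := by
          rw [← Finset.sum_filter, Finset.sum_const, smul_eq_mul]
          congr 2
          ext v
          simp
  have h4 : Z.card * k < (N.card + 1) * k := by
    rw [h2] at h1
    calc Z.card * k ≤ N.card * k + (heavy k L).card * n := by omega
      _ < N.card * k + k := by omega
      _ = (N.card + 1) * k := by ring
  have := lt_of_mul_lt_mul_right h4 (Nat.zero_le k)
  omega

end Pool.Agent.PC157.TaskA2
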