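import Pool.Agent.Q157.PC.Stmts

set_option autoImplicit false

namespace Pool.Agent.PC157.TaskB1
open Finset Pool.Agent.Q157.PC

theorem arith (n m k w t K' h : ℕ) (hm : m + 2 * n ≤ 2 * k) (hk : 0 < k) (hkn : n ≤ k)
    (hwm : w ≤ m) (ht : h - n ≤ t) (hh : m * n ≤ (h - n) * (2 * k - m))
    (hd : w * (k - n) ≤ t * w + K' * k) : w ≤ (t + K') + t := by
  obtain ⟨a, rfl⟩ : ∃ a, k = n + a := ⟨k - n, by omega⟩
  obtain ⟨b, hb⟩ : ∃ b, 2 * (n + a) = m + b := ⟨2 * (n + a) - m, by omega⟩
  obtain ⟨x, rfl⟩ : ∃ x, m = w + x := ⟨m - w, by omega⟩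
  have h1 : (h - n) * (2 * (n + a) - (w + x)) ≤ t * b := by
    have : 2 * (n + a) - (w + x) = b := by omega
    rw [this]
    exact Nat.mul_le_mul_right _ ht
  have h2 : (w + x) * n ≤ t * b := hh.trans h1
  have h3 : n + a - n = a := by omega
  rw [h3] at hd
  by_contra hcon
  push Not at hcon
  have h4 : (t + K' + t + 1) * (n + a) ≤ w * (n + a) := Nat.mul_le_mul_right _ hcon
  -- w a ≤ t w + K' k ; w n ≤ t b - x n ; 2 k = w + x + b
  have h5 : t * (2 * (n + a)) = t * (w + x + b) := by rw [hb]
  nlinarith [Nat.zero_le (t * x), Nat.zero_le (x * n)]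

theorem main : Pool.Agent.Q157.PC.TaskB1 := by
  classical
  intro n m k L hn hm hk hL hh R hR A
  set N := A.biUnion (fun y => L (Sum.inr y) \ R) with hN
  set H := N.filter (fun c => k < mult L c) with hH
  have hsum : ∑ c ∈ N, up k L c = N.card + H.card := by
    have h1 : ∀ c ∈ N, up k L c = 1 + if k < mult L c then 1 else 0 := by
      intro c _
      unfold up
      split_ifs <;> rfl
    rw [Finset.sum_congr rfl h1, Finset.sum_add_distrib, Finset.sum_const, smul_eq_mul, mul_one,
      ← Finset.card_filter]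
  rw [hsum]
  rcases A.eq_empty_or_nonempty with rfl | ⟨y0, hy0⟩
  · simp
  have hNk : k - n ≤ N.card := by
    have h1 : (L (Sum.inr y0) \ R) ⊆ N := fun c hc => mem_biUnion.2 ⟨y0, hy0, hc⟩
    have h2 := card_le_card h1
    have h3 := Finset.le_card_sdiff R (L (Sum.inr y0))
    rw [hL] at h3
    omega
  by_cases hw : A.card ≤ k - n
  · omega
  have hAm : A.card ≤ m := by simpa using card_le_univ A
  have hheavy : heavy k L \ R ⊆ H := by
    intro c hc
    rw [mem_sdiff] at hc
    obtain ⟨hc1, hc2⟩ := hc
    have hc3 : k < mult L c := (mem_filter.1 hc1).2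
    have hsplit : mult L c ≤ n + (univ.filter fun y : Fin m => c ∈ L (Sum.inr y)).card := by
      unfold mult
      have hsub : (univ.filter fun v : Fin n ⊕ Fin m => c ∈ L v) ⊆
          (univ : Finset (Fin n)).image Sum.inl ∪
            (univ.filter fun y : Fin m => c ∈ L (Sum.inr y)).image Sum.inr := by
        intro v hv
        rcases v with x | y
        · exact mem_union_left _ (mem_image.2 ⟨x, mem_univ _, rfl⟩)
        · exact mem_union_right _ (mem_image.2 ⟨y, mem_filter.2 ⟨mem_univ _, (mem_filter.1 hv).2⟩, rfl⟩)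
      refine (card_le_card hsub).trans ((card_union_le _ _).trans ?_)
      refine Nat.add_le_add ?_ card_image_le
      exact card_image_le.trans (by simp)
    have hint : ∃ y ∈ A, c ∈ L (Sum.inr y) := by
      by_contra hcon
      push Not at hcon
      have hdis : Disjoint A (univ.filter fun y : Fin m => c ∈ L (Sum.inr y)) := by
        rw [Finset.disjoint_left]
        intro y hy hy'
        exact hcon y hy (mem_filter.1 hy').2
      have h5 := card_union_of_disjoint hdis
      have h6 : (A ∪ univ.filter fun y : Fin m => c ∈ L (Sum.inr y)).card ≤ m := by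
        simpa using card_le_univ (A ∪ univ.filter fun y : Fin m => c ∈ L (Sum.inr y))
      omega
    obtain ⟨y, hy, hcy⟩ := hint
    exact mem_filter.2 ⟨mem_biUnion.2 ⟨y, hy, mem_sdiff.2 ⟨hcy, hc2⟩⟩, hc3⟩
  have ht : (heavy k L).card - n ≤ H.card := by
    have h1 := card_le_card hheavy
    have h2 := Finset.le_card_sdiff R (heavy k L)
    omega
  have hK : H.card + (N.filter fun c => ¬ k < mult L c).card = N.card := by
    rw [hH]
    exact Finset.card_filter_add_card_filter_not _
  have hdc : A.card * (k - n) ≤ H.card * A.card + (N.filter fun c => ¬ k < mult L c).card * k := by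
    have h1 : A.card * (k - n) ≤ ∑ y ∈ A, (L (Sum.inr y) \ R).card := by
      rw [← smul_eq_mul, ← Finset.sum_const]
      refine Finset.sum_le_sum fun y _ => ?_
      have h3 := Finset.le_card_sdiff R (L (Sum.inr y))
      rw [hL] at h3
      omega
    have h2 : ∑ y ∈ A, (L (Sum.inr y) \ R).card =
        ∑ c ∈ N, (A.filter fun y => c ∈ L (Sum.inr y) \ R).card := by
      have h3 : ∀ y ∈ A, (L (Sum.inr y) \ R).card =
          ∑ c ∈ N, if c ∈ L (Sum.inr y) \ R then 1 else 0 := by
        intro y hy
        rw [← Finset.card_filter]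
        congr 1
        ext c
        rw [mem_filter]
        exact ⟨fun hc => ⟨mem_biUnion.2 ⟨y, hy, hc⟩, hc⟩, fun hc => hc.2⟩
      rw [Finset.sum_congr rfl h3, Finset.sum_comm]
      refine Finset.sum_congr rfl fun c _ => ?_
      rw [← Finset.card_filter]
    have h4 : ∑ c ∈ N, (A.filter fun y => c ∈ L (Sum.inr y) \ R).card ≤
        ∑ c ∈ N, if k < mult L c then A.card else k := by
      refine Finset.sum_le_sum fun c _ => ?_
      split_ifs with h5
      · exact card_filter_le _ _
      · push Not at h5
        refine le_trans ?_ h5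
        unfold mult
        rw [← Finset.card_image_of_injective (A.filter fun y => c ∈ L (Sum.inr y) \ R)
          (Sum.inr_injective (α := Fin n))]
        refine card_le_card fun v hv => ?_
        obtain ⟨y, hy, rfl⟩ := mem_image.1 hv
        exact mem_filter.2 ⟨mem_univ _, (mem_sdiff.1 (mem_filter.1 hy).2).1⟩
    rw [h2] at h1
    refine h1.trans (h4.trans (le_of_eq ?_))
    rw [Finset.sum_ite, Finset.sum_const, Finset.sum_const, smul_eq_mul, smul_eq_mul]
  have := arith n m k A.card H.card _ (heavy k L).card hm (by omega) (by omega) hAm ht hh hdc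
  omega

end Pool.Agent.PC157.TaskB1
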