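import Pool.Agent.Q157.PC.Stmts

set_option autoImplicit false

namespace Pool.Agent.PC157.TaskCaseB

open Finset Pool.Agent.Q157.PC

theorem one_le_up {V : Type} [Fintype V] (k : ℕ) (L : V → Finset ℕ) (c : ℕ) : 1 ≤ up k L c := by
  unfold up; split_ifs <;> omega

theorem main (q : TaskQuota) (a : TaskJ1) (b : TaskJ2) (cc : TaskB1) (u : TaskUse) :
    Pool.Agent.Q157.PC.TaskCaseB := by
  intro n m k L hn hmk hnk hL hheavy
  have hk : 1 ≤ k := by omega
  have hcardV : Fintype.card (Fin n ⊕ Fin m) = n + m := by simp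
  obtain ⟨f0, h01, h02, h03⟩ := q (Fin n ⊕ Fin m) L (up k L) (must k L)
    (fun c _ => one_le_up k L c)
    (a _ k L hk (by rw [hcardV]; omega) hL)
    (fun Z hZ => by
      have := b (Fin n ⊕ Fin m) k L hk hL Z hZ
      convert this)
  set R : Finset ℕ := univ.image (fun x : Fin n => f0 (Sum.inl x)) with hR
  have hRc : R.card ≤ n := by
    calc R.card ≤ (univ : Finset (Fin n)).card := Finset.card_image_le
      _ = n := by simp
  have hR1 : ∀ x : Fin n, f0 (Sum.inl x) ∈ R := fun x =>
    Finset.mem_image_of_mem _ (Finset.mem_univ x)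
  have hR2 : ∀ c ∈ R, ∃ x : Fin n, f0 (Sum.inl x) = c := by
    intro c hc
    obtain ⟨x, _, hx⟩ := Finset.mem_image.1 hc
    exact ⟨x, hx⟩
  obtain ⟨f1, h11, h12, h13⟩ := q (Fin m) (fun y => L (Sum.inr y) \ R) (up k L) (must k L \ R)
    (fun c _ => one_le_up k L c)
    (fun A => by
      have := cc n m k L hn hmk hnk hL hheavy R hRc A
      convert this)
    (fun Z hZ => by
      have hsub : Z ⊆ (univ.filter fun y : Fin m => ∃ c ∈ Z, c ∈ L (Sum.inr y) \ R).image
          (fun y => f0 (Sum.inr y)) := by
        intro c hc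
        have hc2 := Finset.mem_sdiff.1 (hZ hc)
        obtain ⟨v, hv⟩ := h02 c hc2.1
        rcases v with x | y
        · exact absurd (hv ▸ hR1 x) hc2.2
        · rw [Finset.mem_image]
          refine ⟨y, ?_, hv⟩
          rw [Finset.mem_filter]
          refine ⟨Finset.mem_univ y, c, hc, ?_⟩
          rw [Finset.mem_sdiff]
          exact ⟨hv ▸ h01 (Sum.inr y), hc2.2⟩
      calc Z.card ≤ _ := Finset.card_le_card hsub
        _ ≤ (univ.filter fun y : Fin m => ∃ c ∈ Z, c ∈ L (Sum.inr y) \ R).card :=
          Finset.card_image_le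
        _ ≤ _ := by
          apply le_of_eq
          congr)
  have h11' : ∀ y, f1 y ∉ R := fun y => (Finset.mem_sdiff.1 (h11 y)).2
  refine ⟨Sum.elim (fun x => f0 (Sum.inl x)) f1, ?_, ?_, ?_⟩
  · rintro (x | y)
    · exact h01 (Sum.inl x)
    · exact (Finset.mem_sdiff.1 (h11 y)).1
  · rintro (x | y) (x' | y') hadj
    · simp [K, completeBipartiteGraph] at hadj
    · intro he
      simp only [Sum.elim_inl, Sum.elim_inr] at he
      exact h11' y' (he ▸ hR1 x)
    · intro he
      simp only [Sum.elim_inl, Sum.elim_inr] at he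
      exact h11' y (he ▸ hR1 x')
    · simp [K, completeBipartiteGraph] at hadj
  · intro c hc
    set f : Fin n ⊕ Fin m → ℕ := Sum.elim (fun x => f0 (Sum.inl x)) f1 with hf
    have hm1 : 1 ≤ mult L c := by
      obtain ⟨v, hv⟩ := hc
      unfold mult
      apply Finset.card_pos.2
      exact ⟨v, Finset.mem_filter.2 ⟨Finset.mem_univ v, hv⟩⟩
    have hm2 : mult L c < 2 * k := by
      have : mult L c ≤ Fintype.card (Fin n ⊕ Fin m) := by
        unfold mult
        exact Finset.card_le_univ _
      rw [hcardV] at this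
      omega
    have huse : use f c ≤ up k L c := by
      by_cases hcR : c ∈ R
      · refine le_trans ?_ (h03 c)
        unfold use
        apply Finset.card_le_card
        intro v hv
        rw [Finset.mem_filter] at hv ⊢
        refine ⟨Finset.mem_univ v, ?_⟩
        rcases v with x | y
        · exact hv.2
        · have e : f1 y = c := hv.2
          exact absurd (e.symm ▸ hcR) (h11' y)
      · refine le_trans ?_ (h13 c)
        unfold use
        have hsub : (univ.filter fun v => f v = c) ⊆
            (univ.filter fun y : Fin m => f1 y = c).image Sum.inr := by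
          intro v hv
          rw [Finset.mem_filter] at hv
          rcases v with x | y
          · exact absurd (show c ∈ R from hv.2 ▸ hR1 x) hcR
          · rw [Finset.mem_image]
            exact ⟨y, Finset.mem_filter.2 ⟨Finset.mem_univ y, hv.2⟩, rfl⟩
        calc (univ.filter fun v => f v = c).card ≤ _ := Finset.card_le_card hsub
          _ ≤ _ := Finset.card_image_le
    refine u (mult L c) k (use f c) hk hm1 hm2 huse ?_
    intro hkm
    have hmust : c ∈ must k L := by
      unfold must pal
      rw [Finset.mem_filter, Finset.mem_biUnion]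
      obtain ⟨v, hv⟩ := hc
      exact ⟨⟨v, Finset.mem_univ v, hv⟩, hkm⟩
    unfold use
    apply Finset.card_pos.2
    by_cases hcR : c ∈ R
    · obtain ⟨x, hx⟩ := hR2 c hcR
      exact ⟨Sum.inl x, Finset.mem_filter.2 ⟨Finset.mem_univ _, hx⟩⟩
    · obtain ⟨y, hy⟩ := h12 c (Finset.mem_sdiff.2 ⟨hmust, hcR⟩)
      exact ⟨Sum.inr y, Finset.mem_filter.2 ⟨Finset.mem_univ _, hy⟩⟩

end Pool.Agent.PC157.TaskCaseB
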