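import Pool.Agent.Q157.PC.Stmts

set_option autoImplicit false

namespace Pool.Agent.PC157.TaskJ1

open Finset
open Pool.Agent.Q157.PC

theorem main : Pool.Agent.Q157.PC.TaskJ1 := by
  intro V _ k L hk hV hL A
  have h1 : ∑ v ∈ A, (L v).card = ∑ c ∈ A.biUnion L, (A.filter fun v => c ∈ L v).card := by
    have e1 : ∀ v ∈ A, (L v).card = ∑ c ∈ A.biUnion L, if c ∈ L v then 1 else 0 := by
      intro v hv
      have h2 : (A.biUnion L).filter (fun c => c ∈ L v) = L v := by
        ext c
        simp only [Finset.mem_filter]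
        exact ⟨fun h => h.2, fun h => ⟨Finset.mem_biUnion.2 ⟨v, hv, h⟩, h⟩⟩
      rw [Finset.sum_boole, h2]
      simp
    rw [Finset.sum_congr rfl e1, Finset.sum_comm]
    refine Finset.sum_congr rfl fun c _ => ?_
    rw [Finset.sum_boole]
    simp
  have h2 : ∑ v ∈ A, (L v).card = A.card * k := by
    rw [Finset.sum_congr rfl fun v _ => hL v, Finset.sum_const, smul_eq_mul]
  have h3 : ∀ c ∈ A.biUnion L, (A.filter fun v => c ∈ L v).card ≤ k * up k L c := by
    intro c _
    unfold up
    split_ifs with h
    · calc (A.filter fun v => c ∈ L v).card ≤ A.card := Finset.card_filter_le _ _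
        _ ≤ Fintype.card V := Finset.card_le_univ _
        _ ≤ k * 2 := by omega
    · calc (A.filter fun v => c ∈ L v).card ≤ mult L c := by
            unfold mult
            exact Finset.card_le_card (Finset.filter_subset_filter _ (Finset.subset_univ _))
        _ ≤ k * 1 := by omega
  have h4 : A.card * k ≤ (∑ c ∈ A.biUnion L, up k L c) * k := by
    rw [← h2, h1, mul_comm, Finset.mul_sum]
    exact Finset.sum_le_sum h3
  exact Nat.le_of_mul_le_mul_right h4 hk

end Pool.Agent.PC157.TaskJ1
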