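import Mathlib
import Pool.Agent.Q157.PC.Stmts

set_option autoImplicit false

open Finset Pool.Agent.Q157.PC

namespace Pool.Agent.PC157.TaskJ2

theorem main : Pool.Agent.Q157.PC.TaskJ2 := by
  intro V _ k L hk hL Z hZ
  have h1 : Z.card * k ≤ ∑ c ∈ Z, mult L c := by
    rw [← smul_eq_mul, ← Finset.sum_const]
    apply Finset.sum_le_sum
    intro c hc
    exact (Finset.mem_filter.1 (hZ hc)).2
  have h2 : ∑ c ∈ Z, mult L c ≤ (univ.filter fun v => ∃ c ∈ Z, c ∈ L v).card * k := by
    unfold mult
    simp_rw [Finset.card_filter]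
    rw [Finset.sum_comm, Finset.sum_mul]
    apply Finset.sum_le_sum
    intro v _
    rw [← Finset.card_filter]
    split_ifs with h
    · rw [one_mul, ← hL v]
      apply Finset.card_le_card
      intro c hc
      exact (Finset.mem_filter.1 hc).2
    · rw [zero_mul, Nat.le_zero, Finset.card_eq_zero, Finset.filter_eq_empty_iff]
      intro c hc hcv
      exact h ⟨c, hc, hcv⟩
  exact Nat.le_of_mul_le_mul_right (h1.trans h2) hk

end Pool.Agent.PC157.TaskJ2
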