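import Pool.Agent.Q157.PC.Stmts

set_option autoImplicit false

namespace Pool.Agent.PC157.TaskLim

open Filter Topology

theorem main : Pool.Agent.Q157.PC.TaskLim := by
  intro n c hc
  have h1 : Tendsto (fun m : ℕ => (1 / 2 : ℝ) + (1 / 2 + (n : ℝ) ^ 2) / (m : ℝ)) atTop
      (𝓝 (1 / 2)) := by
    have h2 : Tendsto (fun m : ℕ => (1 / 2 + (n : ℝ) ^ 2) / (m : ℝ)) atTop (𝓝 0) :=
      tendsto_const_div_atTop_nhds_zero_nat _
    simpa using h2.const_add (1 / 2 : ℝ)
  refine tendsto_of_tendsto_of_tendsto_of_le_of_le' (tendsto_const_nhds (x := (1 / 2 : ℝ))) h1 ?_ ?_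
  · filter_upwards [eventually_ge_atTop 1] with m hm
    have h3 := (hc m hm).1
    have hm' : (0 : ℝ) < m := by exact_mod_cast hm
    rw [le_div_iff₀ hm']
    have h4 : (m : ℝ) < 2 * c m := by exact_mod_cast h3
    linarith
  · filter_upwards [eventually_ge_atTop 1] with m hm
    have h3 := (hc m hm).2
    have hm' : (0 : ℝ) < m := by exact_mod_cast hm
    have h5 : 2 * c m ≤ m + 1 + 2 * n ^ 2 := by
      generalize n ^ 2 = q at *
      omega
    have h4 : (2 : ℝ) * c m ≤ m + 1 + 2 * n ^ 2 := by exact_mod_cast h5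
    have h6 : (1 / 2 : ℝ) + (1 / 2 + (n : ℝ) ^ 2) / (m : ℝ) = (m / 2 + 1 / 2 + (n : ℝ) ^ 2) / m := by
      field_simp
      ring
    rw [h6]
    gcongr
    linarith

end Pool.Agent.PC157.TaskLim
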