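import Pool.Agent.Q157.PC.Stmts

set_option autoImplicit false

namespace Pool.Agent.PC157.TaskLow

open Finset Pool.Agent.Q157.PC

/-- the lists -/
def LL (n m k : ℕ) : Fin n ⊕ Fin m → Finset ℕ
  | Sum.inl x => Ico (k * x.1) (k * (x.1 + 1))
  | Sum.inr _ => Ico 0 k

theorem card_LL (n m k : ℕ) (v : Fin n ⊕ Fin m) : (LL n m k v).card = k := by
  rcases v with x | y
  · show (Ico (k * x.1) (k * (x.1 + 1))).card = k
    rw [Nat.card_Ico, Nat.mul_add, mul_one]
    omega
  · show (Ico 0 k).card = k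
    simp

theorem mult_LL (n m k c : ℕ) (hn : 1 ≤ n) (hc : c < k) : m + 1 ≤ mult (LL n m k) c := by
  classical
  unfold mult
  have h1 : (insert (Sum.inl ⟨0, hn⟩) ((univ : Finset (Fin m)).map ⟨Sum.inr, Sum.inr_injective⟩) :
      Finset (Fin n ⊕ Fin m)) ⊆ univ.filter fun v => c ∈ LL n m k v := by
    intro v hv
    rw [mem_filter]
    refine ⟨mem_univ _, ?_⟩
    rcases mem_insert.1 hv with rfl | h
    · show c ∈ Ico (k * 0) (k * (0 + 1))
      rw [mem_Ico]
      omega
    · obtain ⟨y, -, rfl⟩ := mem_map.1 h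
      show c ∈ Ico 0 k
      rw [mem_Ico]
      omega
  have h2 := card_le_card h1
  rw [card_insert_of_notMem (by simp), card_map, card_univ, Fintype.card_fin] at h2
  exact h2

theorem main : Pool.Agent.Q157.PC.TaskLow := by
  classical
  intro n m k hn hk hkm hch
  obtain ⟨f, h1, h2, h3⟩ := hch (LL n m k) (card_LL n m k)
  set v0 : Fin n ⊕ Fin m := Sum.inl ⟨0, hn⟩ with hv0
  have hc : f v0 < k := by
    have h := h1 v0
    have h' : f v0 ∈ Ico (k * 0) (k * (0 + 1)) := h
    rw [mem_Ico] at h'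
    omega
  have hm := mult_LL n m k (f v0) hn hc
  have hu : 2 ≤ use f (f v0) := by
    rcases h3 (f v0) ⟨v0, h1 v0⟩ with h | h
    · rw [h, Nat.le_div_iff_mul_le (by omega)]
      omega
    · rw [h, Nat.le_div_iff_mul_le (by omega)]
      omega
  obtain ⟨v, hv, hne⟩ := exists_mem_ne (show 1 < (univ.filter fun v => f v = f v0).card from hu) v0
  have hfv : f v = f v0 := (mem_filter.1 hv).2
  have hLv := h1 v
  rw [hfv] at hLv
  rcases v with x | y
  · have h' : f v0 ∈ Ico (k * x.1) (k * (x.1 + 1)) := hLv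
    rw [mem_Ico] at h'
    have hx : x.1 = 0 := by
      by_contra hx
      have : k * 1 ≤ k * x.1 := Nat.mul_le_mul_left k (Nat.one_le_iff_ne_zero.2 hx)
      omega
    apply hne
    rw [hv0]
    congr 1
    exact Fin.ext hx
  · refine h2 v0 (Sum.inr y) ?_ hfv.symm
    rw [hv0]
    simp [completeBipartiteGraph]

end Pool.Agent.PC157.TaskLow
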