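import Pool.Agent.Q157.PC.Stmts

namespace Pool.Agent.PC157.TaskPar

theorem main : Pool.Agent.Q157.PC.TaskPar := by
  intro n m hn hm
  obtain ⟨q, hq⟩ : ∃ q, q = (m + 1) / 2 := ⟨_, rfl⟩
  rw [← hq]
  have h1 : m ≤ 2 * q := by omega
  have h2 : 1 ≤ q := by omega
  refine ⟨by nlinarith, by nlinarith, ?_⟩
  intro h hh
  have hnh : n ≤ h := by
    by_contra hc
    have hc' : h ≤ n := by omega
    have := Nat.mul_le_mul_right n hc'
    nlinarith
  obtain ⟨d, rfl⟩ := Nat.exists_eq_add_of_le hnh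
  have hd : q ≤ d * n := by nlinarith
  have e1 : n + d - n = d := by omega
  have e2 : 2 * n ^ 2 ≤ 2 * (q + n ^ 2) - m := by omega
  rw [e1]
  calc m * n ≤ (2 * q) * n := Nat.mul_le_mul_right n h1
    _ ≤ (2 * (d * n)) * n := Nat.mul_le_mul_right n (by omega)
    _ = d * (2 * n ^ 2) := by ring
    _ ≤ d * (2 * (q + n ^ 2) - m) := Nat.mul_le_mul_left d e2

end Pool.Agent.PC157.TaskPar
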