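import Pool.Agent.Q157.PC.Stmts

set_option autoImplicit false

namespace Pool.Agent.PC157.TaskUse

open Finset Pool.Agent.Q157.PC

theorem main : Pool.Agent.Q157.PC.TaskUse := by
  intro e k u hk he he2 hu hu1
  rcases lt_trichotomy e k with h | h | h
  · have h1 : e / k = 0 := Nat.div_eq_of_lt h
    have h2 : (e + k - 1) / k = 1 := by
      rw [Nat.div_eq_iff (by omega)]
      omega
    rw [if_neg (by omega)] at hu
    rw [h1, h2]
    omega
  · subst h
    have h1 : e / e = 1 := Nat.div_self (by omega)
    have := hu1 le_rfl
    rw [if_neg (by omega)] at hu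
    left
    rw [h1]
    omega
  · have h1 : e / k = 1 := by
      rw [Nat.div_eq_iff (by omega)]
      omega
    have h2 : (e + k - 1) / k = 2 := by
      rw [Nat.div_eq_iff (by omega)]
      omega
    have := hu1 h.le
    rw [if_pos h] at hu
    rw [h1, h2]
    omega

end Pool.Agent.PC157.TaskUse
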